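import Mathlib
import Pool.Agent.Helper96.TF.Final

open Pool.Agent.Helper96.TF

namespace Pool.Agent.Results.MP_88afc7_mp.MoleculesSeventhPower

/-- The Thomas-Fermi interaction energy of neutral molecules of fixed shape is of order `l⁻⁷`:
for `γ > 0`, `n ≥ 2` molecules, the `m`-th with nuclei of charges `z m i > 0` at the distinct
positions `R m i`, and distinct vectors `Y m`, there are `0 < c ≤ C` with
`c / l ^ 7 ≤ ΔE(l) ≤ C / l ^ 7` for all large `l`. The infima defining the energies are taken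
over nonempty sets of real numbers that are bounded below. -/
theorem result (γ : ℝ) (hγ : 0 < γ) (n : ℕ) (hn : 2 ≤ n) (K : Fin n → ℕ) (hK : ∀ m, 0 < K m)
    (z : ∀ m, Fin (K m) → ℝ) (hz : ∀ m i, 0 < z m i) (R : ∀ m, Fin (K m) → X)
    (hR : ∀ m, Function.Injective (R m)) (Y : Fin n → X) (hY : Function.Injective Y) :
    (∀ (k : ℕ) (q : Fin k → ℝ) (Q : Fin k → X), (∀ i, 0 < q i) →
      (energySet γ q Q).Nonempty ∧ BddBelow (energySet γ q Q)) ∧
    (∀ l : ℝ, (energySet γ (fun i : (m : Fin n) × Fin (K m) => z i.1 i.2)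
        (fun i => R i.1 i.2 + l • Y i.1)).Nonempty ∧
      BddBelow (energySet γ (fun i : (m : Fin n) × Fin (K m) => z i.1 i.2)
        (fun i => R i.1 i.2 + l • Y i.1))) ∧
    ∃ c C l0 : ℝ, 0 < c ∧ c ≤ C ∧ 0 < l0 ∧ ∀ l, l0 ≤ l →
      c / l ^ 7 ≤ DeltaE γ z R Y l ∧ DeltaE γ z R Y l ≤ C / l ^ 7 :=
  final hγ hn hK z hz R hR Y hY

end Pool.Agent.Results.MP_88afc7_mp.MoleculesSeventhPower
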